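import Pool.Agent.W488.KS.Stm

open Matrix Finset Module CliffordAlgebra

namespace Pool.Agent.W583.KS

open Pool.Agent.W488.KS

noncomputable section

variable {n : ℕ}

/-- linear extension of a family of matrices -/
def lc {p q : ℕ} (F : Fin n → Matrix (Fin p) (Fin q) ℚ) (u : Fin n → ℚ) :
    Matrix (Fin p) (Fin q) ℚ := ∑ i, u i • F i

theorem lc_mul {p q r : ℕ} (F : Fin n → Matrix (Fin p) (Fin q) ℚ)
    (G : Fin n → Matrix (Fin q) (Fin r) ℚ) (u v : Fin n → ℚ) :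
    lc F u * lc G v = ∑ i, ∑ j, (u i * v j) • (F i * G j) := by
  unfold lc
  rw [Matrix.sum_mul]
  refine Finset.sum_congr rfl fun i _ => ?_
  rw [Matrix.mul_sum]
  refine Finset.sum_congr rfl fun j _ => ?_
  rw [Matrix.smul_mul, Matrix.mul_smul, smul_smul]

theorem lc_rel {p q : ℕ} (Q : Matrix (Fin n) (Fin n) ℚ)
    (F : Fin n → Matrix (Fin p) (Fin q) ℚ) (G : Fin n → Matrix (Fin q) (Fin p) ℚ)
    (c : Matrix (Fin p) (Fin p) ℚ) (h : ∀ i j, F i * G j + F j * G i = Q i j • c)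
    (u v : Fin n → ℚ) :
    lc F u * lc G v + lc F v * lc G u = (Matrix.toBilin' Q u v) • c := by
  have h1 : lc F v * lc G u = ∑ i, ∑ j, (v j * u i) • (F j * G i) := by
    rw [lc_mul, Finset.sum_comm]
  rw [lc_mul, h1, ← Finset.sum_add_distrib, Matrix.toBilin'_apply, Finset.sum_smul]
  refine Finset.sum_congr rfl fun i _ => ?_
  rw [← Finset.sum_add_distrib, Finset.sum_smul]
  refine Finset.sum_congr rfl fun j _ => ?_
  rw [mul_comm (v j) (u i), ← smul_add, h, smul_smul]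
  congr 1; ring

theorem lc_comm {p q : ℕ} (F : Fin n → Matrix (Fin p) (Fin q) ℚ)
    (c : Matrix (Fin q) (Fin q) ℚ) (d : Matrix (Fin p) (Fin p) ℚ)
    (h : ∀ i, F i * c = d * F i) (u : Fin n → ℚ) : lc F u * c = d * lc F u := by
  unfold lc
  rw [Matrix.sum_mul, Matrix.mul_sum]
  refine Finset.sum_congr rfl fun i _ => ?_
  rw [Matrix.smul_mul, Matrix.mul_smul, h]

theorem bil_exp (Q : Matrix (Fin n) (Fin n) ℚ) (u v : Fin n → ℚ) :
    (even.ι (qf Q)).bilin u v = ∑ i, ∑ j, (u i * v j) • ee Q i j := by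
  have hu : ∀ w : Fin n → ℚ, w = ∑ i, w i • (Pi.single i 1 : Fin n → ℚ) := by
    intro w
    ext j
    simp [Finset.sum_apply, Pi.single_apply]
  conv_lhs => rw [hu u, hu v]
  simp only [map_sum, map_smul, LinearMap.sum_apply, LinearMap.smul_apply, Finset.smul_sum,
    smul_smul]
  rw [Finset.sum_comm]
  refine Finset.sum_congr rfl fun i _ => Finset.sum_congr rfl fun j _ => ?_
  first
    | rfl
    | (rw [mul_comm]; rfl)

theorem alg_bil {p q : ℕ} (Q : Matrix (Fin n) (Fin n) ℚ)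
    (F : Fin n → Matrix (Fin p) (Fin q) ℚ) (G : Fin n → Matrix (Fin q) (Fin p) ℚ)
    (c : Matrix (Fin p) (Fin p) ℚ)
    (α : CliffordAlgebra.even (qf Q) →ₐ[ℚ] Matrix (Fin p) (Fin p) ℚ)
    (h : ∀ i j, α (ee Q i j) = (2 : ℚ) • (c * F i * G j)) (u v : Fin n → ℚ) :
    α ((even.ι (qf Q)).bilin u v) = (2 : ℚ) • (c * lc F u * lc G v) := by
  rw [bil_exp, map_sum, Matrix.mul_assoc, lc_mul, Matrix.mul_sum, Finset.smul_sum]
  refine Finset.sum_congr rfl fun i _ => ?_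
  rw [map_sum, Matrix.mul_sum, Finset.smul_sum]
  refine Finset.sum_congr rfl fun j _ => ?_
  rw [map_smul, h, Matrix.mul_smul, smul_comm, Matrix.mul_assoc]

theorem exists_ne (hn : 0 < n) (Q : Matrix (Fin n) (Fin n) ℚ) (hQ : Qᵀ = Q) (hd : Q.det ≠ 0) :
    ∃ e : Fin n → ℚ, Matrix.toBilin' Q e e ≠ 0 := by
  by_contra h
  push Not at h
  have : Nonempty (Fin n) := ⟨⟨0, hn⟩⟩
  have hQ0 : Q = 0 := by
    ext i j
    have h1 := h (Pi.single i 1)
    have h2 := h (Pi.single j 1)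
    have h3 := h (Pi.single i 1 + Pi.single j 1)
    have h4 : Q j i = Q i j := by
      conv_lhs => rw [← hQ]
      rfl
    simp only [map_add, LinearMap.add_apply, Matrix.toBilin'_single] at h1 h2 h3
    rw [h1, h2, h4] at h3
    rw [Matrix.zero_apply]
    linarith
  exact hd (by rw [hQ0, Matrix.det_zero])

theorem mem_bil (Q : Matrix (Fin n) (Fin n) ℚ) (u v : Fin n → ℚ) :
    ι (qf Q) u * ι (qf Q) v ∈ CliffordAlgebra.even (qf Q) :=
  ((even.ι (qf Q)).bilin u v).2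

theorem mk_bil (Q : Matrix (Fin n) (Fin n) ℚ) (u v : Fin n → ℚ)
    (h : ι (qf Q) u * ι (qf Q) v ∈ CliffordAlgebra.even (qf Q)) :
    (⟨ι (qf Q) u * ι (qf Q) v, h⟩ : CliffordAlgebra.even (qf Q)) =
      (even.ι (qf Q)).bilin u v := rfl

theorem qf_apply (Q : Matrix (Fin n) (Fin n) ℚ) (u : Fin n → ℚ) :
    qf Q u = Matrix.toBilin' Q u u := rfl

theorem exists_lin {p : ℕ} (Q : Matrix (Fin n) (Fin n) ℚ)
    (α : CliffordAlgebra.even (qf Q) →ₐ[ℚ] Matrix (Fin p) (Fin p) ℚ) :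
    ∃ g : CliffordAlgebra (qf Q) →ₗ[ℚ] Matrix (Fin p) (Fin p) ℚ,
      ∀ z : CliffordAlgebra.even (qf Q), g (z : CliffordAlgebra (qf Q)) = α z := by
  obtain ⟨g, hg⟩ := LinearMap.exists_extend
    (p := Subalgebra.toSubmodule (CliffordAlgebra.even (qf Q))) α.toLinearMap
  exact ⟨g, fun z => LinearMap.congr_fun hg z⟩

/-- the adjoint of the even action -/
theorem adj {p : ℕ} (Q : Matrix (Fin n) (Fin n) ℚ)
    (β : CliffordAlgebra.even (qf Q) →ₐ[ℚ] Matrix (Fin p) (Fin p) ℚ)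
    (E : Matrix (Fin p) (Fin p) ℚ)
    (h : ∀ u v, (β ((even.ι (qf Q)).bilin u v))ᵀ * E = E * β ((even.ι (qf Q)).bilin v u)) :
    ∀ (x : CliffordAlgebra (qf Q)) (_ : x ∈ evenOdd (qf Q) 0)
      (h1 : x ∈ CliffordAlgebra.even (qf Q)) (h2 : reverse x ∈ CliffordAlgebra.even (qf Q)),
      (β ⟨x, h1⟩)ᵀ * E = E * β ⟨reverse x, h2⟩ := by
  intro x hx
  induction x, hx using CliffordAlgebra.even_induction with
  | algebraMap r =>
    intro h1 h2
    have e1 : (⟨algebraMap ℚ (CliffordAlgebra (qf Q)) r, h1⟩ : CliffordAlgebra.even (qf Q)) =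
        algebraMap ℚ (CliffordAlgebra.even (qf Q)) r := rfl
    have e2 : (⟨reverse (algebraMap ℚ (CliffordAlgebra (qf Q)) r), h2⟩ :
        CliffordAlgebra.even (qf Q)) = algebraMap ℚ (CliffordAlgebra.even (qf Q)) r :=
      Subtype.ext (reverse.commutes r)
    rw [e1, e2, AlgHom.commutes, Algebra.algebraMap_eq_smul_one, Matrix.transpose_smul,
      Matrix.transpose_one, Matrix.smul_mul, Matrix.mul_smul, Matrix.one_mul, Matrix.mul_one]
  | add x y hx hy ihx ihy =>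
    intro h1 h2
    have hx2 : reverse x ∈ CliffordAlgebra.even (qf Q) :=
      (reverse_mem_evenOdd_iff (Q := qf Q) (n := 0)).2 hx
    have hy2 : reverse y ∈ CliffordAlgebra.even (qf Q) :=
      (reverse_mem_evenOdd_iff (Q := qf Q) (n := 0)).2 hy
    have e1 : (⟨x + y, h1⟩ : CliffordAlgebra.even (qf Q)) = ⟨x, hx⟩ + ⟨y, hy⟩ := rfl
    have e2 : (⟨reverse (x + y), h2⟩ : CliffordAlgebra.even (qf Q)) =
        ⟨reverse x, hx2⟩ + ⟨reverse y, hy2⟩ := Subtype.ext (map_add _ _ _)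
    rw [e1, e2, map_add, map_add, Matrix.transpose_add, Matrix.add_mul, Matrix.mul_add,
      ihx hx hx2, ihy hy hy2]
  | ι_mul_ι_mul u v x hx ih =>
    intro h1 h2
    have hx2 : reverse x ∈ CliffordAlgebra.even (qf Q) :=
      (reverse_mem_evenOdd_iff (Q := qf Q) (n := 0)).2 hx
    have e1 : (⟨ι (qf Q) u * ι (qf Q) v * x, h1⟩ : CliffordAlgebra.even (qf Q)) =
        (even.ι (qf Q)).bilin u v * ⟨x, hx⟩ := rfl
    have e2 : (⟨reverse (ι (qf Q) u * ι (qf Q) v * x), h2⟩ : CliffordAlgebra.even (qf Q)) =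
        ⟨reverse x, hx2⟩ * (even.ι (qf Q)).bilin v u := by
      apply Subtype.ext
      change reverse (ι (qf Q) u * ι (qf Q) v * x) = reverse x * (ι (qf Q) v * ι (qf Q) u)
      rw [reverse.map_mul, reverse.map_mul, reverse_ι, reverse_ι]
    rw [e1, e2, map_mul, map_mul, Matrix.transpose_mul, Matrix.mul_assoc, h, ← Matrix.mul_assoc,
      ih hx hx2, Matrix.mul_assoc]

theorem mem_uxv (Q : Matrix (Fin n) (Fin n) ℚ) (u w : Fin n → ℚ)
    {x : CliffordAlgebra (qf Q)} (hx : x ∈ evenOdd (qf Q) 0) :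
    ι (qf Q) u * x * ι (qf Q) w ∈ CliffordAlgebra.even (qf Q) := by
  have h3 : ι (qf Q) u * x * ι (qf Q) w ∈ evenOdd (qf Q) ((1 : ZMod 2) + 0 + 1) :=
    SetLike.mul_mem_graded (SetLike.mul_mem_graded (ι_mem_evenOdd_one (qf Q) u) hx)
      (ι_mem_evenOdd_one (qf Q) w)
  have h4 : ((1 : ZMod 2) + 0 + 1) = 0 := by decide
  rw [h4] at h3
  exact h3

theorem inv_comm {p q : ℕ} (X : Matrix (Fin p) (Fin q) ℚ) (c : Matrix (Fin q) (Fin q) ℚ)
    (d : Matrix (Fin p) (Fin p) ℚ) (hc : IsUnit c.det) (hd : IsUnit d.det)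
    (h : X * c = d * X) : X * c⁻¹ = d⁻¹ * X := by
  have h1 : d⁻¹ * (X * c) * c⁻¹ = d⁻¹ * X := by
    rw [Matrix.mul_assoc, Matrix.mul_assoc, Matrix.mul_nonsing_inv _ hc, Matrix.mul_one]
  rw [← h1, h, ← Matrix.mul_assoc, Matrix.nonsing_inv_mul _ hd, Matrix.one_mul]

/-- the intertwining property -/
theorem inter {a b : ℕ} (Q : Matrix (Fin n) (Fin n) ℚ)
    (α : CliffordAlgebra.even (qf Q) →ₐ[ℚ] Matrix (Fin a) (Fin a) ℚ)
    (β : CliffordAlgebra.even (qf Q) →ₐ[ℚ] Matrix (Fin b) (Fin b) ℚ)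
    (φ : (Fin n → ℚ) → Matrix (Fin b) (Fin a) ℚ)
    (e : Fin n → ℚ) (q : ℚ) (he : qf Q e = q)
    (h1 : ∀ u, φ e * α ((even.ι (qf Q)).bilin e u) = q • φ u)
    (h2 : ∀ u v, β ((even.ι (qf Q)).bilin u v) * φ e = φ u * α ((even.ι (qf Q)).bilin v e))
    (g : CliffordAlgebra (qf Q) →ₗ[ℚ] Matrix (Fin a) (Fin a) ℚ)
    (hg : ∀ z : CliffordAlgebra.even (qf Q), g (z : CliffordAlgebra (qf Q)) = α z) :
    ∀ (x : CliffordAlgebra (qf Q)) (_ : x ∈ evenOdd (qf Q) 0)
      (h : x ∈ CliffordAlgebra.even (qf Q)) (v : Fin n → ℚ),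
      q • (β ⟨x, h⟩ * φ v) = φ e * g (ι (qf Q) e * x * ι (qf Q) v) := by
  intro x hx
  induction x, hx using CliffordAlgebra.even_induction with
  | algebraMap r =>
    intro h v
    have e1 : (⟨algebraMap ℚ (CliffordAlgebra (qf Q)) r, h⟩ : CliffordAlgebra.even (qf Q)) =
        algebraMap ℚ (CliffordAlgebra.even (qf Q)) r := rfl
    have e2 : ι (qf Q) e * algebraMap ℚ (CliffordAlgebra (qf Q)) r * ι (qf Q) v =
        r • (((even.ι (qf Q)).bilin e v : CliffordAlgebra.even (qf Q)) :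
          CliffordAlgebra (qf Q)) := by
      rw [Algebra.algebraMap_eq_smul_one, mul_smul_comm, mul_one, smul_mul_assoc]
      rfl
    rw [e1, e2, map_smul, hg, AlgHom.commutes, Algebra.algebraMap_eq_smul_one, Matrix.smul_mul,
      Matrix.one_mul, Matrix.mul_smul, h1, smul_comm]
  | add x y hx hy ihx ihy =>
    intro h v
    have e1 : (⟨x + y, h⟩ : CliffordAlgebra.even (qf Q)) = ⟨x, hx⟩ + ⟨y, hy⟩ := rfl
    rw [e1, map_add, Matrix.add_mul, smul_add, ihx hx v, ihy hy v, mul_add, add_mul, map_add,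
      Matrix.mul_add]
  | ι_mul_ι_mul u w x hx ih =>
    intro h v
    have e1 : (⟨ι (qf Q) u * ι (qf Q) w * x, h⟩ : CliffordAlgebra.even (qf Q)) =
        (even.ι (qf Q)).bilin u w * ⟨x, hx⟩ := rfl
    have e3 : ι (qf Q) e * (ι (qf Q) u * ι (qf Q) w * x) * ι (qf Q) v =
        (((even.ι (qf Q)).bilin e u * ⟨ι (qf Q) w * x * ι (qf Q) v, mem_uxv Q w v hx⟩ :
          CliffordAlgebra.even (qf Q)) : CliffordAlgebra (qf Q)) := by
      change _ = ι (qf Q) e * ι (qf Q) u * (ι (qf Q) w * x * ι (qf Q) v)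
      simp only [mul_assoc]
    have e4 : (even.ι (qf Q)).bilin w e * ⟨ι (qf Q) e * x * ι (qf Q) v, mem_uxv Q e v hx⟩ =
        q • (⟨ι (qf Q) w * x * ι (qf Q) v, mem_uxv Q w v hx⟩ : CliffordAlgebra.even (qf Q)) := by
      apply Subtype.ext
      change ι (qf Q) w * ι (qf Q) e * (ι (qf Q) e * x * ι (qf Q) v) =
        q • (ι (qf Q) w * x * ι (qf Q) v)
      have e5 : ι (qf Q) w * ι (qf Q) e * (ι (qf Q) e * x * ι (qf Q) v) =
          ι (qf Q) w * (ι (qf Q) e * ι (qf Q) e) * x * ι (qf Q) v := by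
        simp only [mul_assoc]
      rw [e5, ι_sq_scalar, he, Algebra.algebraMap_eq_smul_one, mul_smul_comm, mul_one,
        smul_mul_assoc, smul_mul_assoc]
    have e6 : g (ι (qf Q) e * x * ι (qf Q) v) =
        α ⟨ι (qf Q) e * x * ι (qf Q) v, mem_uxv Q e v hx⟩ :=
      hg ⟨ι (qf Q) e * x * ι (qf Q) v, mem_uxv Q e v hx⟩
    have ih' := ih hx v
    rw [e6] at ih'
    rw [e1, e3, hg, map_mul, map_mul, Matrix.mul_assoc, ← Matrix.mul_smul, ih',
      ← Matrix.mul_assoc, h2, Matrix.mul_assoc, ← map_mul, e4, map_smul, ← Matrix.mul_assoc, h1,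
      Matrix.mul_smul, Matrix.smul_mul]

/-- (MU) -/
theorem mu : S_mu := by
  intro n a b Q hQ hdet EA EB hEA hEB hdA hdB Θ φ ψ c d hc hd hφ hψ hcR hdR hφc hcψ α β hα hβ
  rcases Nat.eq_zero_or_pos n with hn | hn
  · subst hn
    refine ⟨0, fun v z z' => ?_⟩
    rw [LinearMap.zero_apply, Finset.univ_eq_empty, Finset.sum_empty, Matrix.mul_zero,
      Matrix.zero_mul]
  obtain ⟨e, he⟩ := exists_ne hn Q hQ hdet
  obtain ⟨q, hq⟩ : ∃ q, Matrix.toBilin' Q e e = q := ⟨_, rfl⟩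
  rw [hq] at he
  obtain ⟨g, hg⟩ := exists_lin Q α
  have hcd : IsUnit c.det := (Matrix.isUnit_iff_isUnit_det c).1 hc
  have hdd : IsUnit d.det := (Matrix.isUnit_iff_isUnit_det d).1 hd
  have hA : IsUnit EA.det := isUnit_iff_ne_zero.2 hdA
  have hB : IsUnit EB.det := isUnit_iff_ne_zero.2 hdB
  have hαb := alg_bil Q ψ φ c⁻¹ α hα
  have hβb := alg_bil Q φ ψ d⁻¹ β hβ
  have k1 : ∀ u, lc φ u * c⁻¹ = d⁻¹ * lc φ u := fun u =>
    inv_comm _ _ _ hcd hdd (lc_comm φ c d hφc u)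
  have k2 : ∀ u, lc ψ u * d⁻¹ = c⁻¹ * lc ψ u := fun u =>
    inv_comm _ _ _ hdd hcd (lc_comm ψ d c (fun i => (hcψ i).symm) u)
  have two : (2 : ℚ) • (lc φ e * lc ψ e) = q • d := by
    rw [two_smul, lc_rel Q φ ψ d hdR e e, hq]
  have h1 : ∀ u, lc φ e * α ((even.ι (qf Q)).bilin e u) = q • lc φ u := by
    intro u
    rw [hαb, Matrix.mul_smul, ← Matrix.mul_assoc, ← Matrix.mul_assoc, k1, Matrix.mul_assoc d⁻¹,
      ← Matrix.smul_mul, ← Matrix.mul_smul, two, Matrix.mul_smul,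
      Matrix.nonsing_inv_mul _ hdd, Matrix.smul_mul, Matrix.one_mul]
  have h2 : ∀ u v, β ((even.ι (qf Q)).bilin u v) * lc φ e =
      lc φ u * α ((even.ι (qf Q)).bilin v e) := by
    intro u v
    rw [hαb, hβb, Matrix.smul_mul, Matrix.mul_smul, ← Matrix.mul_assoc, ← Matrix.mul_assoc, k1]
  -- adjoints
  have t0 : ∀ u, EB * lc φ u = -(lc Θ u)ᵀ := by
    intro u
    unfold lc
    rw [Matrix.mul_sum, Matrix.transpose_sum, ← Finset.sum_neg_distrib]
    refine Finset.sum_congr rfl fun i _ => ?_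
    rw [Matrix.mul_smul, hφ, Matrix.mul_neg, ← Matrix.mul_assoc, Matrix.mul_nonsing_inv _ hB,
      Matrix.one_mul, Matrix.transpose_smul, smul_neg]
  have t1 : ∀ u, (lc φ u)ᵀ * EB = lc Θ u := by
    intro u
    have := congrArg Matrix.transpose (t0 u)
    rw [Matrix.transpose_mul, hEB, Matrix.mul_neg, Matrix.transpose_neg,
      Matrix.transpose_transpose, neg_inj] at this
    exact this
  have t2 : ∀ u, EA * lc ψ u = lc Θ u := by
    intro u
    unfold lc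
    rw [Matrix.mul_sum]
    refine Finset.sum_congr rfl fun i _ => ?_
    rw [Matrix.mul_smul, hψ, ← Matrix.mul_assoc, Matrix.mul_nonsing_inv _ hA, Matrix.one_mul]
  have t3 : ∀ u, (lc ψ u)ᵀ * EA = EB * lc φ u := by
    intro u
    have := congrArg Matrix.transpose (t2 u)
    rw [Matrix.transpose_mul, hEA, Matrix.mul_neg] at this
    rw [t0, ← this, neg_neg]
  have t4 : dᵀ * EB = EB * d := by
    have h3 : q • (dᵀ * EB) = q • (EB * d) := by
      rw [← Matrix.smul_mul, ← Matrix.transpose_smul, ← two, Matrix.transpose_smul,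
        Matrix.transpose_mul, Matrix.smul_mul, Matrix.mul_assoc, t1, ← t2, ← Matrix.mul_assoc,
        t3, Matrix.mul_assoc, ← Matrix.mul_smul, two, Matrix.mul_smul]
    exact smul_right_injective _ he h3
  have t5 : (d⁻¹)ᵀ * EB = EB * d⁻¹ := by
    rw [Matrix.transpose_nonsing_inv]
    refine (inv_comm EB d dᵀ hdd ?_ t4.symm).symm
    rw [Matrix.det_transpose]
    exact hdd
  have t6 : ∀ u v, (β ((even.ι (qf Q)).bilin u v))ᵀ * EB =
      EB * β ((even.ι (qf Q)).bilin v u) := by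
    intro u v
    rw [hβb, hβb, Matrix.transpose_smul, Matrix.smul_mul, Matrix.mul_smul, Matrix.transpose_mul,
      Matrix.transpose_mul]
    congr 1
    calc (lc ψ v)ᵀ * ((lc φ u)ᵀ * (d⁻¹)ᵀ) * EB
        = (lc ψ v)ᵀ * ((lc φ u)ᵀ * ((d⁻¹)ᵀ * EB)) := by simp only [Matrix.mul_assoc]
      _ = (lc ψ v)ᵀ * ((lc φ u)ᵀ * EB) * d⁻¹ := by rw [t5]; simp only [Matrix.mul_assoc]
      _ = ((lc ψ v)ᵀ * EA) * lc ψ u * d⁻¹ := by rw [t1, ← t2]; simp only [Matrix.mul_assoc]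
      _ = EB * (lc φ v * (lc ψ u * d⁻¹)) := by rw [t3]; simp only [Matrix.mul_assoc]
      _ = EB * ((lc φ v * c⁻¹) * lc ψ u) := by rw [k2]; simp only [Matrix.mul_assoc]
      _ = EB * (d⁻¹ * lc φ v * lc ψ u) := by rw [k1]
  refine ⟨{ toFun := fun m => (q⁻¹ • (lc φ e * g (ι (qf Q) e * m)))ᵀ * EB
            map_add' := ?_
            map_smul' := ?_ }, ?_⟩
  · intro x y
    rw [mul_add, map_add, Matrix.mul_add, smul_add, Matrix.transpose_add, Matrix.add_mul]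
  · intro r x
    rw [mul_smul_comm, map_smul, Matrix.mul_smul, smul_comm, Matrix.transpose_smul,
      Matrix.smul_mul, RingHom.id_apply]
  · intro v z z'
    have hz' : (z' : CliffordAlgebra (qf Q)) ∈ evenOdd (qf Q) 0 := z'.2
    have hr : reverse (z' : CliffordAlgebra (qf Q)) ∈ evenOdd (qf Q) 0 :=
      (reverse_mem_evenOdd_iff (Q := qf Q) (n := 0)).2 hz'
    have hrr : reverse (reverse (z' : CliffordAlgebra (qf Q))) ∈
        CliffordAlgebra.even (qf Q) := by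
      rw [reverse_reverse]
      exact z'.2
    have a1 := adj Q β EB t6 _ hr hr hrr
    have a2 : (⟨reverse (reverse (z' : CliffordAlgebra (qf Q))), hrr⟩ :
        CliffordAlgebra.even (qf Q)) = z' := Subtype.ext (reverse_reverse _)
    rw [a2] at a1
    have a3 := inter Q α β (lc φ) e q (by rw [qf_apply, hq]) h1 h2 g hg _ hr hr v
    have a4 : g (ι (qf Q) e * (reverse (z' : CliffordAlgebra (qf Q)) * ι (qf Q) v *
        (z : CliffordAlgebra (qf Q)))) =
        g (ι (qf Q) e * reverse (z' : CliffordAlgebra (qf Q)) * ι (qf Q) v) * α z := by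
      have b1 : ι (qf Q) e * (reverse (z' : CliffordAlgebra (qf Q)) * ι (qf Q) v *
          (z : CliffordAlgebra (qf Q))) =
          (((⟨ι (qf Q) e * reverse (z' : CliffordAlgebra (qf Q)) * ι (qf Q) v,
            mem_uxv Q e v hr⟩ : CliffordAlgebra.even (qf Q)) * z :
              CliffordAlgebra.even (qf Q)) : CliffordAlgebra (qf Q)) := by
        change _ = ι (qf Q) e * reverse (z' : CliffordAlgebra (qf Q)) * ι (qf Q) v *
          (z : CliffordAlgebra (qf Q))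
        simp only [mul_assoc]
      rw [b1, hg, map_mul]
      congr 1
      exact (hg ⟨ι (qf Q) e * reverse (z' : CliffordAlgebra (qf Q)) * ι (qf Q) v,
            mem_uxv Q e v hr⟩).symm
    change (q⁻¹ • (lc φ e * g (ι (qf Q) e * (reverse (z' : CliffordAlgebra (qf Q)) *
      ι (qf Q) v * (z : CliffordAlgebra (qf Q))))))ᵀ * EB = (α z)ᵀ * lc Θ v * β z'
    rw [a4, ← Matrix.mul_assoc, ← a3, Matrix.smul_mul, smul_smul, inv_mul_cancel₀ he, one_smul,
      Matrix.transpose_mul, Matrix.transpose_mul, Matrix.mul_assoc, Matrix.mul_assoc, a1, ← t1]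
    simp only [Matrix.mul_assoc]

end

end Pool.Agent.W583.KS
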